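import Pool.Agent.TruncTheta.Main

namespace Pool.Agent.Results.MP_1cbc82_co.NonnegCoefficients

open PowerSeries Pool.Agent.TruncTheta
open scoped PowerSeries.WithPiTopology

/-- For every `k ≥ 1`, all coefficients of
`F_k(q) = ∏_{i ≥ 1} (1 + q^i) · ∑_{n ≥ 0} (-1)^{T_n} q^{T_{n + 2k}}` are non-negative.
(The first two clauses record that the infinite product and sum defining `F k` converge
coefficientwise.) -/
theorem result :
    Multipliable (fun i : ℕ => 1 + (X : ℤ⟦X⟧) ^ (i + 1)) ∧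
    (∀ k : ℕ, Summable fun n : ℕ => (-1 : ℤ⟦X⟧) ^ T n * X ^ T (n + 2 * k)) ∧
    ∀ k : ℕ, 1 ≤ k → ∀ N : ℕ, 0 ≤ coeff N (F k) := by
  refine ⟨?_, summable_Th, F_nonneg⟩
  have h := Nat.Partition.multipliable_powerSeriesMk_card_countRestricted ℤ 2
  simpa [Finset.sum_range_succ] using h

end Pool.Agent.Results.MP_1cbc82_co.NonnegCoefficients
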